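import Pool.Agent.LCK.Stmts

set_option autoImplicit false

/-!
# Squad LCK, row DET: a polynomial certificate for simple chains
-/

open Topology

namespace Pool.Agent.LCK.H41

open Pool.Agent.LCK

section pf

variable {σ : Type}

theorem pf_const (c : ℝ) : PF (fun _ : σ → ℝ => c) :=
  ⟨MvPolynomial.C c, fun x => by rw [MvPolynomial.eval_C]⟩

theorem pf_X (i : σ) : PF (fun x : σ → ℝ => x i) :=
  ⟨MvPolynomial.X i, fun x => by rw [MvPolynomial.eval_X]⟩

theorem pf_add {f g : (σ → ℝ) → ℝ} (hf : PF f) (hg : PF g) : PF (fun x => f x + g x) := by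
  obtain ⟨p, hp⟩ := hf
  obtain ⟨q, hq⟩ := hg
  exact ⟨p + q, fun x => by rw [map_add, ← hp, ← hq]⟩

theorem pf_mul {f g : (σ → ℝ) → ℝ} (hf : PF f) (hg : PF g) : PF (fun x => f x * g x) := by
  obtain ⟨p, hp⟩ := hf
  obtain ⟨q, hq⟩ := hg
  exact ⟨p * q, fun x => by rw [map_mul, ← hp, ← hq]⟩

theorem pf_sub {f g : (σ → ℝ) → ℝ} (hf : PF f) (hg : PF g) : PF (fun x => f x - g x) := by
  obtain ⟨p, hp⟩ := hf
  obtain ⟨q, hq⟩ := hg
  exact ⟨p - q, fun x => by rw [map_sub, ← hp, ← hq]⟩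

theorem pf_pow {f : (σ → ℝ) → ℝ} (hf : PF f) (k : ℕ) : PF (fun x => f x ^ k) := by
  obtain ⟨p, hp⟩ := hf
  exact ⟨p ^ k, fun x => by rw [map_pow, ← hp]⟩

theorem pf_sum {ι : Type} (s : Finset ι) {f : ι → (σ → ℝ) → ℝ} (h : ∀ i ∈ s, PF (f i)) :
    PF (fun x => ∑ i ∈ s, f i x) := by
  classical
  induction s using Finset.induction_on with
  | empty => simpa using pf_const (σ := σ) 0
  | insert i s hi ih =>
    have h1 := pf_add (h i (Finset.mem_insert_self i s))
      (ih fun j hj => h j (Finset.mem_insert_of_mem hj))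
    obtain ⟨p, hp⟩ := h1
    exact ⟨p, fun x => (Finset.sum_insert hi).trans (hp x)⟩

theorem pf_prod {ι : Type} (s : Finset ι) {f : ι → (σ → ℝ) → ℝ} (h : ∀ i ∈ s, PF (f i)) :
    PF (fun x => ∏ i ∈ s, f i x) := by
  classical
  induction s using Finset.induction_on with
  | empty => simpa using pf_const (σ := σ) 1
  | insert i s hi ih =>
    have h1 := pf_mul (h i (Finset.mem_insert_self i s))
      (ih fun j hj => h j (Finset.mem_insert_of_mem hj))
    obtain ⟨p, hp⟩ := h1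
    exact ⟨p, fun x => (Finset.prod_insert hi).trans (hp x)⟩

theorem pf_ne_mul {f g : (σ → ℝ) → ℝ} (hf : PF f) (hg : PF g) (h1 : ∃ a, f a ≠ 0)
    (h2 : ∃ a, g a ≠ 0) : ∃ a, f a * g a ≠ 0 := by
  obtain ⟨p, hp⟩ := hf
  obtain ⟨q, hq⟩ := hg
  obtain ⟨a, ha⟩ := h1
  obtain ⟨b, hb⟩ := h2
  have hp0 : p ≠ 0 := by
    rintro rfl
    exact ha (by rw [hp, map_zero])
  have hq0 : q ≠ 0 := by
    rintro rfl
    exact hb (by rw [hq, map_zero])
  by_contra hcon
  push Not at hcon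
  refine mul_ne_zero hp0 hq0 ?_
  apply MvPolynomial.funext
  intro x
  rw [map_mul, map_zero, ← hp, ← hq]
  exact hcon x

theorem pf_ne_prod {ι : Type} (s : Finset ι) {f : ι → (σ → ℝ) → ℝ} (h : ∀ i ∈ s, PF (f i))
    (h' : ∀ i ∈ s, ∃ a, f i a ≠ 0) : ∃ a, ∏ i ∈ s, f i a ≠ 0 := by
  classical
  induction s using Finset.induction_on with
  | empty => exact ⟨0, by simp⟩
  | insert i s hi ih =>
    obtain ⟨a, ha⟩ := pf_ne_mul (h i (Finset.mem_insert_self i s))
      (pf_prod s fun j hj => h j (Finset.mem_insert_of_mem hj))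
      (h' i (Finset.mem_insert_self i s))
      (ih (fun j hj => h j (Finset.mem_insert_of_mem hj))
        (fun j hj => h' j (Finset.mem_insert_of_mem hj)))
    exact ⟨a, by rw [Finset.prod_insert hi]; exact ha⟩

end pf

/-- coordinates of the direction of link `k` -/
noncomputable def uc {n : ℕ} (k : Fin n) (c : Fin 3) (a : Fin (n + 1) × Fin 3 → ℝ) : ℝ :=
  U (fun i => a (k.succ, i)) c

/-- denominator of link `k` -/
noncomputable def qc {n : ℕ} (k : Fin n) (a : Fin (n + 1) × Fin 3 → ℝ) : ℝ :=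
  Q (fun i => a (k.succ, i))

theorem pf_qc {n : ℕ} (k : Fin n) : PF (qc k) :=
  pf_add (pf_add (pf_pow (pf_X _) 2) (pf_pow (pf_X _) 2)) (pf_pow (pf_X _) 2)

theorem pf_uc {n : ℕ} (k : Fin n) (c : Fin 3) : PF (uc k c) := by
  fin_cases c
  · exact pf_mul (pf_mul (pf_const 2) (pf_X (k.succ, 0))) (pf_X (k.succ, 2))
  · exact pf_mul (pf_mul (pf_const 2) (pf_X (k.succ, 1))) (pf_X (k.succ, 2))
  · exact pf_sub (pf_add (pf_pow (pf_X (k.succ, 0)) 2) (pf_pow (pf_X (k.succ, 1)) 2))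
      (pf_pow (pf_X (k.succ, 2)) 2)

/-- squared norm of the cross product -/
def gram (x y : Fin 3 → ℝ) : ℝ :=
  (x 0 * y 1 - x 1 * y 0) ^ 2 + (x 1 * y 2 - x 2 * y 1) ^ 2 + (x 0 * y 2 - x 2 * y 0) ^ 2

/-- determinant -/
def det3 (x y z : Fin 3 → ℝ) : ℝ :=
  x 0 * (y 1 * z 2 - y 2 * z 1) - x 1 * (y 0 * z 2 - y 2 * z 0) +
    x 2 * (y 0 * z 1 - y 1 * z 0)

open Classical in
/-- the numerator of the vector between the links `i` and `j` -/
noncomputable def sc {n : ℕ} (l : Fin n → ℝ) (i j : Fin n) (c : Fin 3)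
    (a : Fin (n + 1) × Fin 3 → ℝ) : ℝ :=
  ∑ k ∈ Finset.univ.filter (fun k : Fin n => i < k ∧ k < j),
    (l k * ∏ m ∈ Finset.univ.erase k, qc m a) * uc k c a

open Classical in
/-- the factor of the pair `(i, j)` -/
noncomputable def fac {n : ℕ} (l : Fin n → ℝ) (i j : Fin n) (a : Fin (n + 1) × Fin 3 → ℝ) : ℝ :=
  if (j : ℕ) = i + 1 then gram (fun c => uc i c a) (fun c => uc j c a)
  else if (i : ℕ) + 1 < j then det3 (fun c => uc i c a) (fun c => uc j c a)
    (fun c => sc l i j c a)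
  else 1

theorem pf_gram {σ : Type} {x y : Fin 3 → (σ → ℝ) → ℝ} (hx : ∀ c, PF (x c)) (hy : ∀ c, PF (y c)) :
    PF (fun a => gram (fun c => x c a) (fun c => y c a)) := by
  unfold gram
  exact pf_add (pf_add
    (pf_pow (pf_sub (pf_mul (hx _) (hy _)) (pf_mul (hx _) (hy _))) 2)
    (pf_pow (pf_sub (pf_mul (hx _) (hy _)) (pf_mul (hx _) (hy _))) 2))
    (pf_pow (pf_sub (pf_mul (hx _) (hy _)) (pf_mul (hx _) (hy _))) 2)

theorem pf_det3 {σ : Type} {x y z : Fin 3 → (σ → ℝ) → ℝ} (hx : ∀ c, PF (x c))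
    (hy : ∀ c, PF (y c)) (hz : ∀ c, PF (z c)) :
    PF (fun a => det3 (fun c => x c a) (fun c => y c a) (fun c => z c a)) := by
  unfold det3
  exact pf_add (pf_sub
    (pf_mul (hx _) (pf_sub (pf_mul (hy _) (hz _)) (pf_mul (hy _) (hz _))))
    (pf_mul (hx _) (pf_sub (pf_mul (hy _) (hz _)) (pf_mul (hy _) (hz _)))))
    (pf_mul (hx _) (pf_sub (pf_mul (hy _) (hz _)) (pf_mul (hy _) (hz _))))

theorem pf_sc {n : ℕ} (l : Fin n → ℝ) (i j : Fin n) (c : Fin 3) : PF (sc l i j c) := by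
  unfold sc
  exact pf_sum _ fun k _ => pf_mul (pf_mul (pf_const _) (pf_prod _ fun m _ => pf_qc m)) (pf_uc k c)

theorem pf_fac {n : ℕ} (l : Fin n → ℝ) (i j : Fin n) : PF (fac l i j) := by
  unfold fac
  split_ifs
  · exact pf_gram (pf_uc i) (pf_uc j)
  · exact pf_det3 (pf_uc i) (pf_uc j) (pf_sc l i j)
  · exact pf_const 1

open Classical in
/-- the test point: link `i` in direction `(1,0,0)`, link `j` in direction `(0,1,0)`, the other
links in direction `(0,0,-1)` -/
noncomputable def tp {n : ℕ} (i j : Fin n) (x : Fin (n + 1) × Fin 3) : ℝ :=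
  if x.1 = i.succ then (if x.2 = 1 then 0 else 1)
  else if x.1 = j.succ then (if x.2 = 0 then 0 else 1)
  else if x.2 = 2 then 1 else 0

theorem tp_i {n : ℕ} (i j : Fin n) :
    uc i 0 (tp i j) = 2 ∧ uc i 1 (tp i j) = 0 ∧ uc i 2 (tp i j) = 0 ∧ qc i (tp i j) = 2 := by
  refine ⟨?_, ?_, ?_, ?_⟩ <;> simp [uc, qc, U, Q, tp] <;> norm_num

theorem tp_j {n : ℕ} {i j : Fin n} (hij : i ≠ j) :
    uc j 0 (tp i j) = 0 ∧ uc j 1 (tp i j) = 2 ∧ uc j 2 (tp i j) = 0 ∧ qc j (tp i j) = 2 := by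
  have h : j ≠ i := hij.symm
  refine ⟨?_, ?_, ?_, ?_⟩ <;> simp [uc, qc, U, Q, tp, h] <;> norm_num

theorem tp_k {n : ℕ} {i j k : Fin n} (hi : k ≠ i) (hj : k ≠ j) :
    uc k 0 (tp i j) = 0 ∧ uc k 1 (tp i j) = 0 ∧ uc k 2 (tp i j) = -1 ∧ qc k (tp i j) = 1 := by
  refine ⟨?_, ?_, ?_, ?_⟩ <;> simp [uc, qc, U, Q, tp, hi, hj]

theorem qc_tp_pos {n : ℕ} {i j : Fin n} (hij : i ≠ j) (k : Fin n) : 0 < qc k (tp i j) := by
  by_cases h1 : k = i
  · rw [h1, (tp_i i j).2.2.2]
    norm_num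
  · by_cases h2 : k = j
    · rw [h2, (tp_j hij).2.2.2]
      norm_num
    · rw [(tp_k h1 h2).2.2.2]
      norm_num

theorem fac_ne {n : ℕ} (l : Fin n → ℝ) (hl : ∀ k, 0 < l k) (i j : Fin n) :
    ∃ a, fac l i j a ≠ 0 := by
  classical
  unfold fac
  split_ifs with h1 h2
  · have hij : i ≠ j := by
      intro h
      rw [h] at h1
      omega
    refine ⟨tp i j, ?_⟩
    obtain ⟨p1, p2, p3, _⟩ := tp_i i j
    obtain ⟨r1, r2, r3, _⟩ := tp_j hij
    simp only [gram, p1, p2, p3, r1, r2, r3]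
    norm_num
  · have hij : i ≠ j := by
      intro h
      rw [h] at h2
      omega
    refine ⟨tp i j, ?_⟩
    obtain ⟨p1, p2, p3, _⟩ := tp_i i j
    obtain ⟨r1, r2, r3, _⟩ := tp_j hij
    have hs : sc l i j 2 (tp i j) < 0 := by
      unfold sc
      have hne : (Finset.univ.filter (fun k : Fin n => i < k ∧ k < j)).Nonempty := by
        refine ⟨⟨(i : ℕ) + 1, by omega⟩, ?_⟩
        rw [Finset.mem_filter]
        refine ⟨Finset.mem_univ _, ?_, ?_⟩
        · rw [Fin.lt_def]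
          show (i : ℕ) < (i : ℕ) + 1
          omega
        · rw [Fin.lt_def]
          exact h2
      refine Finset.sum_neg (fun k hk => ?_) hne
      rw [Finset.mem_filter] at hk
      have hki : k ≠ i := ne_of_gt hk.2.1
      have hkj : k ≠ j := ne_of_lt hk.2.2
      rw [(tp_k hki hkj).2.2.1]
      have := mul_pos (hl k) (Finset.prod_pos
        (fun m (_ : m ∈ Finset.univ.erase k) => qc_tp_pos hij m))
      linarith
    simp only [det3, p1, p2, p3, r1, r2, r3]
    intro h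
    nlinarith
  · exact ⟨0, one_ne_zero⟩

/-- the certificate -/
noncomputable def cert {n : ℕ} (l : Fin n → ℝ) (a : Fin (n + 1) × Fin 3 → ℝ) : ℝ :=
  (∏ k : Fin n, qc k a) * ∏ p : Fin n × Fin n, fac l p.1 p.2 a

theorem pf_cert {n : ℕ} (l : Fin n → ℝ) : PF (cert l) :=
  pf_mul (pf_prod _ fun k _ => pf_qc k) (pf_prod _ fun p _ => pf_fac l p.1 p.2)

theorem cert_ne {n : ℕ} (l : Fin n → ℝ) (hl : ∀ k, 0 < l k) : ∃ a, cert l a ≠ 0 := by
  refine pf_ne_mul (pf_prod _ fun k _ => pf_qc k) (pf_prod _ fun p _ => pf_fac l p.1 p.2) ?_ ?_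
  · refine pf_ne_prod _ (fun k _ => pf_qc k) (fun k _ => ⟨fun _ => 1, ?_⟩)
    simp [qc, Q]
    norm_num
  · exact pf_ne_prod _ (fun p _ => pf_fac l p.1 p.2) (fun p _ => fac_ne l hl p.1 p.2)

/-- coordinates of a sum -/
theorem co_sum {ι : Type} (s : Finset ι) (f : ι → E3) (c : Fin 3) :
    (∑ i ∈ s, f i) c = ∑ i ∈ s, f i c := by
  classical
  induction s using Finset.induction_on with
  | empty => simp
  | insert i s hi ih => rw [Finset.sum_insert hi, Finset.sum_insert hi, PiLp.add_apply, ih]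

/-- the vector between two links -/
theorem V_sub {n : ℕ} (l : Fin n → ℝ) (a : Fin (n + 1) × Fin 3 → ℝ) {i j : Fin n} (hij : i < j)
    (hQ : ∀ k : Fin n, qc k a ≠ 0) (c : Fin 3) :
    (∏ m, qc m a) * (V l a j.castSucc - V l a i.succ) c = sc l i j c a := by
  classical
  have h1 : V l a j.castSucc - V l a i.succ =
      ∑ k ∈ Finset.univ.filter (fun k : Fin n => i < k ∧ k < j),
        (l k / qc k a) • U (fun i => a (k.succ, i)) := by
    unfold V
    rw [add_sub_add_left_eq_sub, ← Finset.sum_sub_distrib, Finset.sum_filter]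
    refine Finset.sum_congr rfl fun k _ => ?_
    have e1 : ((j.castSucc : Fin (n + 1)) : ℕ) = j := rfl
    have e2 : ((i.succ : Fin (n + 1)) : ℕ) = i + 1 := rfl
    have hij' : (i : ℕ) < j := hij
    rw [e1, e2]
    by_cases h1 : (k : ℕ) < j <;> by_cases h2 : (k : ℕ) < i + 1
    · have h3 : ¬ (i < k ∧ k < j) := fun h => by
        have := Fin.lt_def.1 h.1
        omega
      rw [if_pos h1, if_pos h2, if_neg h3, sub_self]
    · have h3 : i < k ∧ k < j := ⟨Fin.lt_def.2 (by omega), Fin.lt_def.2 h1⟩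
      rw [if_pos h1, if_neg h2, if_pos h3, sub_zero]
      rfl
    · omega
    · have h3 : ¬ (i < k ∧ k < j) := fun h => h1 (Fin.lt_def.1 h.2)
      rw [if_neg h1, if_neg h2, if_neg h3, sub_zero]
  rw [h1, co_sum]
  unfold sc
  rw [Finset.mul_sum]
  refine Finset.sum_congr rfl fun k _ => ?_
  rw [← Finset.mul_prod_erase Finset.univ (fun m => qc m a) (Finset.mem_univ k), PiLp.smul_apply,
    smul_eq_mul]
  have := hQ k
  show qc k a * _ * (l k / qc k a * uc k c a) = _
  field_simp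

theorem gram_zero {x y : Fin 3 → ℝ} {s t : ℝ} (ht : t ≠ 0) (h : ∀ c, s * x c = t * y c) :
    gram x y = 0 := by
  have h' : ∀ c, y c = s / t * x c := by
    intro c
    have := h c
    field_simp
    linarith
  unfold gram
  rw [h' 0, h' 1, h' 2]
  ring

theorem det3_zero {x y z : Fin 3 → ℝ} {s t : ℝ} (h : ∀ c, z c = s * x c + t * y c) :
    det3 x y z = 0 := by
  unfold det3
  rw [h 0, h 1, h 2]
  ring

theorem det (hPAR : PARStmt) : DETStmt := by
  intro n l hl
  refine ⟨cert l, pf_cert l, cert_ne l hl, fun a ha => ?_⟩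
  classical
  obtain ⟨hq, hf⟩ := mul_ne_zero_iff.1 ha
  have hQ : ∀ k : Fin n, qc k a ≠ 0 := fun k => Finset.prod_ne_zero_iff.1 hq k (Finset.mem_univ k)
  have hF : ∀ i j : Fin n, fac l i j a ≠ 0 := fun i j =>
    Finset.prod_ne_zero_iff.1 hf (i, j) (Finset.mem_univ _)
  refine ⟨hQ, ?_⟩
  obtain ⟨hstep, -, -⟩ := (hPAR n l hl).2 a hQ
  have hstep' : ∀ (k : Fin n) (c : Fin 3),
      (V l a k.succ - V l a k.castSucc) c = l k / qc k a * uc k c a := by
    intro k c
    rw [hstep k, PiLp.smul_apply, smul_eq_mul]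
    rfl
  have hlq : ∀ k : Fin n, l k / qc k a ≠ 0 := fun k => div_ne_zero (hl k).ne' (hQ k)
  intro i j hij
  have hij' : (i : ℕ) < j := hij
  by_cases hc : (j : ℕ) = (i : ℕ) + 1
  · rw [if_pos hc]
    have e : j.castSucc = i.succ := Fin.ext (by rw [Fin.val_castSucc, Fin.val_succ, hc])
    have hg := hF i j
    unfold fac at hg
    rw [if_pos hc] at hg
    apply Set.eq_singleton_iff_unique_mem.2
    refine ⟨⟨right_mem_segment _ _ _, by rw [e]; exact left_mem_segment _ _ _⟩, ?_⟩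
    rintro z ⟨h1, h2⟩
    rw [segment_eq_image'] at h1 h2
    obtain ⟨s, -, rfl⟩ := h1
    obtain ⟨t, -, h3⟩ := h2
    simp only at h3
    by_contra hz
    apply hg
    have ht : t ≠ 0 := by
      rintro rfl
      rw [zero_smul, add_zero, e] at h3
      exact hz h3.symm
    refine gram_zero (s := (s - 1) * (l i / qc i a)) (t := t * (l j / qc j a))
      (mul_ne_zero ht (hlq j)) fun c => ?_
    have h4 : (s - 1) • (V l a i.succ - V l a i.castSucc) =
        t • (V l a j.succ - V l a j.castSucc) := by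
      have h5 : t • (V l a j.succ - V l a j.castSucc) =
          V l a i.castSucc + s • (V l a i.succ - V l a i.castSucc) - V l a j.castSucc := by
        rw [← h3]
        abel
      rw [h5, e, sub_smul, one_smul]
      abel
    have h6 := congrArg (fun v : E3 => v c) h4
    simp only [PiLp.smul_apply, smul_eq_mul] at h6
    rw [hstep' i c, hstep' j c] at h6
    linarith
  · rw [if_neg hc]
    have hc2 : (i : ℕ) + 1 < j := by omega
    have hg := hF i j
    unfold fac at hg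
    rw [if_neg hc, if_pos hc2] at hg
    apply Set.eq_empty_iff_forall_notMem.2
    rintro z ⟨h1, h2⟩
    rw [segment_eq_image'] at h1 h2
    obtain ⟨s, -, rfl⟩ := h1
    obtain ⟨t, -, h3⟩ := h2
    simp only at h3
    apply hg
    refine det3_zero (s := (∏ m, qc m a) * ((s - 1) * (l i / qc i a)))
      (t := -((∏ m, qc m a) * (t * (l j / qc j a)))) fun c => ?_
    have h4 : V l a j.castSucc - V l a i.succ = (s - 1) • (V l a i.succ - V l a i.castSucc) -
        t • (V l a j.succ - V l a j.castSucc) := by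
      have h5 : t • (V l a j.succ - V l a j.castSucc) =
          V l a i.castSucc + s • (V l a i.succ - V l a i.castSucc) - V l a j.castSucc := by
        rw [← h3]
        abel
      rw [h5, sub_smul, one_smul]
      abel
    have h6 := congrArg (fun v : E3 => (∏ m, qc m a) * v c) h4
    simp only [PiLp.sub_apply, PiLp.smul_apply, smul_eq_mul] at h6
    have h7 := V_sub l a hij hQ c
    have h8 := hstep' i c
    have h9 := hstep' j c
    rw [PiLp.sub_apply] at h7 h8 h9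
    rw [h8, h9, h7] at h6
    rw [h6]
    ring

end Pool.Agent.LCK.H41
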