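import Pool.Agent.LCK.Stmts

set_option autoImplicit false

/-!
# Squad LCK, row FCP: the set where a real polynomial does not vanish
-/

open Topology

namespace Pool.Agent.LCK.H41

open Pool.Agent.LCK

theorem fcp (hFCD : FCDStmt) (hPDN : PDNStmt) (hSQF : SQFStmt) (hLCB : LCBStmt) : FCPStmt := by
  intro m
  induction m with
  | zero =>
    intro P hP
    refine ⟨{{x : Fin 0 → ℝ | MvPolynomial.eval x P ≠ 0}}, Set.finite_singleton _, ?_, ?_⟩
    · rintro t rfl
      exact ⟨(Set.subsingleton_of_subsingleton).isPreconnected, subset_rfl⟩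
    · rw [Set.sUnion_singleton]
  | succ m ih =>
    intro P hP
    have hp : MvPolynomial.finSuccEquiv ℝ m P ≠ 0 := by
      intro h
      exact hP ((map_eq_zero_iff _ (MvPolynomial.finSuccEquiv ℝ m).injective).1 h)
    obtain ⟨H, q, hH, hq, hgood, himp⟩ := hSQF m _ hp
    have hW := hLCB m H q hgood (ih H hH)
    have hsub : WW H q ⊆ {x : Fin (m + 1) → ℝ | MvPolynomial.eval x P ≠ 0} := by
      rintro y ⟨h1, h2⟩
      have h3 := himp _ h1 (y 0) h2
      have h4 := MvPolynomial.eval_eq_eval_mv_eval' (fun i => y i.succ) (y 0) P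
      have h5 : (Fin.cons (y 0) (fun i => y i.succ) : Fin (m + 1) → ℝ) = y :=
        Fin.cons_self_tail y
      rw [h5] at h4
      show MvPolynomial.eval y P ≠ 0
      rw [h4]
      exact h3
    have heq : WW H q = {y : Fin (m + 1) → ℝ | MvPolynomial.eval y
        (MvPolynomial.rename Fin.succ H * (MvPolynomial.finSuccEquiv ℝ m).symm q) ≠ 0} := by
      ext y
      have h4 := MvPolynomial.eval_eq_eval_mv_eval' (fun i => y i.succ) (y 0)
        ((MvPolynomial.finSuccEquiv ℝ m).symm q)
      have h5 : (Fin.cons (y 0) (fun i => y i.succ) : Fin (m + 1) → ℝ) = y :=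
        Fin.cons_self_tail y
      rw [h5, AlgEquiv.apply_symm_apply] at h4
      have h6 : MvPolynomial.eval y (MvPolynomial.rename Fin.succ H) =
          MvPolynomial.eval (fun i => y i.succ) H := by
        rw [MvPolynomial.eval_rename]
        rfl
      show (_ ∧ _) ↔ _ ≠ _
      rw [map_mul, h6, h4, mul_ne_zero_iff]
      rfl
    have hne : MvPolynomial.rename Fin.succ H * (MvPolynomial.finSuccEquiv ℝ m).symm q ≠ 0 := by
      refine mul_ne_zero ?_ ?_
      · intro h
        exact hH ((map_eq_zero_iff _ (MvPolynomial.rename_injective _ (Fin.succ_injective m))).1 h)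
      · intro h
        exact hq ((map_eq_zero_iff _ (MvPolynomial.finSuccEquiv ℝ m).symm.injective).1 h)
    have hd : Dense (WW H q) := by
      rw [heq]
      exact hPDN (m + 1) _ hne
    exact (hFCD (Fin (m + 1) → ℝ) (Fin (m + 1) → ℝ)).1 _ _ hsub (fun x _ => hd x) hW

end Pool.Agent.LCK.H41
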